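import Mathlib
import Pool.Agent.H504.CV.Opt
import Pool.Agent.H504.CV.BaseQ
import Pool.Agent.H504.CV.Shc

/-!
# Stark's conjecture: reduction to the characters with cyclic fields of values, and its optimality

The definitions are in `Pool.Agent.K4H74.SC.Core`, `Pool.Agent.K4H77.SL.Def`,
`Pool.Agent.H504.CV.Rel`, `Fld`, `Bas`, `Stm` and `Fix` and `Pool.Agent.H504.RV.Rel`; `S` is the set
of the infinite places. The formal properties of `A(χ, φ)`, the convergence of the Artin L-series and Chebotarev's theorem are proved.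
-/

set_option autoImplicit false

namespace Pool.Agent.Results.MP_46b841_nt.CyclicFieldsOfValues

open NumberField Pool.Agent.K4H74 Pool.Agent.K4H74.SK Pool.Agent.K4H77 Pool.Agent.H504.CV

/-- Let `c` be a system of leading coefficients at `s = 0` of the Artin L-functions (such systems
exist; by Brauer's theorem on the meromorphic continuation, the only one is `L*(0, χ)`). Every
character `χ` has for every automorphism `σ` of `ℂ` exactly one defect `d(χ, σ)`, a nonzero number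
with `A(χ, φ)^σ = d(χ, σ) A(χ^σ, φ)` for all `φ`; Stark's conjecture says that `d(χ, σ) = 1`. The
field of values `ℚ(χ) = vals χ` is an abelian extension of `ℚ`. Let `k(χ) = cexpF (vals χ)` be the
product of `|A_p| / p` over the primes `p` for which the `p`-part `A_p` of `A = Gal(ℚ(χ) / ℚ)` is not
cyclic.

(1) For every character `χ` of the Galois group of any extension `L / K` of number fields there are
characters `θ_i` of the same group, sums of conjugates of `χ`, whose fields of values are cyclic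
extensions of `ℚ` contained in `ℚ(χ)`, and integers `n_i` such that `k(χ) χ = ∑ n_i θ_i`. So
`L(s, χ)^k(χ) = ∏ L(s, θ_i)^(n_i)` (for the logarithms), the same is true for the leading coefficients
and for the defects, and, exactly, `A(χ, φ)^k(χ) = ∏ A(θ_i, φ)^(n_i)` for all `φ`.

(2) The same is true (for the numbers `A` up to algebraic factors) with characters `θ_i` of the Galois
group of an extension of `ℚ` instead of `L / K`.

(3) If Stark's conjecture for `σ` is true for the characters of `Gal(L / K)`, or for the characters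
of the Galois groups of the extensions of `ℚ`, whose fields of values are cyclic over `ℚ` and
contained in `ℚ(χ)`, then `d(χ, σ)^k(χ) = 1`.

(4) This is optimal. Let `χ` be an irreducible character of the Galois group of an extension of `ℚ`
and `B = Gal(ℚ(χ) / ℚ)`. For every set `Φ` of fields and every `n`, the power `L(s, χ)^n` is a product
of integral powers of L-functions of characters (of any extensions of number fields) with values in
fields in `Φ` if and only if `n` lies in the ideal of `ℤ[B]` generated by the sums over the groups `Gal(ℚ(χ) / ℚ(χ) ∩ F)`, `F ∈ Φ`. For the set of all cyclic fields this is the case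
if and only if `k(χ)` divides `n`. The ideal contains some `n ≥ 1` if and only if every cyclic subfield
of `ℚ(χ)` is contained in a field in `Φ`.

(5) Let `m ≥ 1`. For every character `χ` of any extension of number fields there are `n ≥ 1`,
characters `ψ_i` which are basic for `m` and `ℚ(χ)`, and integers `k_i` such that
`L(s, χ)^n = ∏ L(s, ψ_i)^(k_i)`, the same is true for the leading coefficients, for the defects and,
up to an algebraic factor, for the numbers `A(χ, φ)`. The basic characters are the trivial ones, the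
totally odd linear ones and the traces over the cyclic fields `K ⊆ ℚ(χ)` of the faithful linear
characters of the cyclic extensions of totally complex fields which are unramified at all finite
primes, split completely above `m`, and whose degree is the conductor of `K`.

(6) So, for every field `F` and every `σ`, the defects of all the characters with values in `F` are
roots of unity if those of the basic characters for `m` and `F` are; and the numbers `A(χ, φ)` of all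
the characters with values in `F` are algebraic if those of the basic ones are. -/
theorem result : (∃ c : Pair → ℂ, IsLeading c) ∧ ∀ c : Pair → ℂ, IsLeading c →
    -- the defects
    (∀ (σ : ℂ ≃+* ℂ) (E : Ext) (χ : G E → ℂ), IsChr χ → ∃! d : ℂˣ, IsDefect c σ χ d) ∧
    -- (1)
    (∀ (E : Ext) (χ : G E → ℂ), IsChr χ →
      0 < cexpF (vals χ) ∧ (Cyc (vals χ) → cexpF (vals χ) = 1) ∧
      cexpF (vals χ) ∣ Module.finrank ℚ (vals χ) ∧
      ∃ (r : ℕ) (θ : Fin r → G E → ℂ) (n : Fin r → ℤ),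
        (∀ i, IsChr (θ i) ∧ vals (θ i) ≤ vals χ ∧ Cyc (vals (θ i)) ∧
          ∃ (m : ℕ) (τ : Fin m → ℂ ≃+* ℂ), ∀ g, θ i g = ∑ j, τ j (χ g)) ∧
        cexpF (vals χ) • χ = ∑ i, n i • θ i ∧
        LRel ⟨E, χ⟩ (cexpF (vals χ)) (fun i => ⟨E, θ i⟩) n ∧
        c ⟨E, χ⟩ ^ cexpF (vals χ) = ∏ i, c ⟨E, θ i⟩ ^ n i ∧
        DRel c ⟨E, χ⟩ (cexpF (vals χ)) (fun i => ⟨E, θ i⟩) n ∧
        ∀ Λ : Y E →ₗ[ℂ] Y E, IsStarkMap Λ → ∀ (a : ℂ) (a' : Fin r → ℂ), IsA c Λ χ a →
          (∀ i, IsA c Λ (θ i) (a' i)) → a ^ cexpF (vals χ) = ∏ i, a' i ^ n i) ∧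
    -- (2)
    (∀ (E : Ext) (χ : G E → ℂ), IsChr χ →
      ∃ (N : Type) (_ : Field N) (_ : NumberField N) (_ : IsGalois ℚ N)
        (r : ℕ) (θ : Fin r → G (⟨ℚ, N⟩ : Ext) → ℂ) (n : Fin r → ℤ),
        Nonempty (E.L →+* N) ∧
        (∀ i, IsChr (θ i) ∧ vals (θ i) ≤ vals χ ∧ Cyc (vals (θ i))) ∧
        LRel ⟨E, χ⟩ (cexpF (vals χ)) (fun i => ⟨⟨ℚ, N⟩, θ i⟩) n ∧
        c ⟨E, χ⟩ ^ cexpF (vals χ) = ∏ i, c ⟨⟨ℚ, N⟩, θ i⟩ ^ n i ∧
        DRel c ⟨E, χ⟩ (cexpF (vals χ)) (fun i => ⟨⟨ℚ, N⟩, θ i⟩) n ∧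
        ∀ (a : ℂ) (a' : Fin r → ℂ), IsStarkNumber c ⟨E, χ⟩ a →
          (∀ i, IsStarkNumber c ⟨⟨ℚ, N⟩, θ i⟩ (a' i)) →
            ∃ α : ℂ, IsAlgebraic ℚ α ∧ a ^ cexpF (vals χ) = α * ∏ i, a' i ^ n i) ∧
    -- (3)
    (∀ (σ : ℂ ≃+* ℂ) (E : Ext) (χ : G E → ℂ), IsChr χ →
      ((∀ θ : G E → ℂ, IsChr θ → vals θ ≤ vals χ → Cyc (vals θ) → Stark c σ θ) ∨
        (∀ (N : Type) [Field N] [NumberField N] [IsGalois ℚ N] (θ : G (⟨ℚ, N⟩ : Ext) → ℂ),
          IsChr θ → vals θ ≤ vals χ → Cyc (vals θ) → Stark c σ θ)) →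
        ∀ d : ℂˣ, IsDefect c σ χ d → d ^ cexpF (vals χ) = 1) ∧
    -- (4)
    (∀ (L : Type) [Field L] [NumberField L] [IsGalois ℚ L] (χ : G (⟨ℚ, L⟩ : Ext) → ℂ),
      χ ∈ Pool.Agent.H541R3.ART.Irr (G (⟨ℚ, L⟩ : Ext)) →
        (∀ (Φ : Set (IntermediateField ℚ ℂ)) (n : ℕ),
          (∃ (r : ℕ) (x : Fin r → Pair) (k : Fin r → ℤ),
            (∀ i, IsChr (x i).2 ∧ ∃ F ∈ Φ, vals (x i).2 ≤ F) ∧ LRel ⟨⟨ℚ, L⟩, χ⟩ n x k) ↔
            InIdeal (vals χ) Φ n) ∧
        (∀ n : ℕ, InIdeal (vals χ) {F | Cyc F} n ↔ cexpF (vals χ) ∣ n) ∧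
        ∀ Φ : Set (IntermediateField ℚ ℂ),
          (∃ n : ℕ, 0 < n ∧ InIdeal (vals χ) Φ n) ↔
          ∀ K : IntermediateField ℚ ℂ, K ≤ vals χ → Cyc K → ∃ F ∈ Φ, K ≤ F) ∧
    -- (5)
    (∀ m : ℕ, m ≠ 0 → ∀ (E : Ext) (χ : G E → ℂ), IsChr χ → ∃ n : ℕ, 0 < n ∧
      ∃ (r : ℕ) (x : Fin r → Pair) (k : Fin r → ℤ), (∀ i, Basic m (vals χ) (x i)) ∧
        LRel ⟨E, χ⟩ n x k ∧ c ⟨E, χ⟩ ^ n = ∏ i, c (x i) ^ k i ∧ DRel c ⟨E, χ⟩ n x k ∧
        ∀ (a : ℂ) (a' : Fin r → ℂ), IsStarkNumber c ⟨E, χ⟩ a →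
          (∀ i, IsStarkNumber c (x i) (a' i)) →
            ∃ α : ℂ, IsAlgebraic ℚ α ∧ a ^ n = α * ∏ i, a' i ^ k i) ∧
    -- (6)
    (∀ m : ℕ, m ≠ 0 → ∀ F : IntermediateField ℚ ℂ,
      (∀ σ : ℂ ≃+* ℂ,
        (∀ x : Pair, Basic m F x → ∀ d : ℂˣ, IsDefect c σ x.2 d → IsOfFinOrder d) →
          ∀ (E : Ext) (χ : G E → ℂ), IsChr χ → vals χ ≤ F → ∀ d : ℂˣ, IsDefect c σ χ d →
            IsOfFinOrder d) ∧
      ((∀ x : Pair, Basic m F x → ∀ a : ℂ, IsStarkNumber c x a → IsAlgebraic ℚ a) →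
        ∀ (E : Ext) (χ : G E → ℂ), IsChr χ → vals χ ≤ F → ∀ a : ℂ,
          IsStarkNumber c ⟨E, χ⟩ a → IsAlgebraic ℚ a)) := by
  refine ⟨exists_isLeading, fun c hc => ⟨fun σ E χ hχ => existsUnique_defect hc σ hχ, ?_,
    fun E χ hχ => over_Q hc hχ, ?_, ?_, ?_, ?_⟩⟩
  · intro E χ hχ
    exact ⟨cexpF_pos (abl_vals hχ), cexpF_cyc, cexpF_dvd (abl_vals hχ), same_ext hc hχ⟩
  · intro σ E χ hχ hst d hd
    rcases hst with hst | hst
    · obtain ⟨r, θ, n, hθ, -, -, -, h, -⟩ := same_ext hc hχ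
      rw [h σ d (fun _ => 1) hd fun i => isDefect_one_iff.mpr
        (hst (θ i) (hθ i).1 (hθ i).2.1 (hθ i).2.2.1)]
      exact Finset.prod_eq_one fun i _ => one_zpow _
    · obtain ⟨N, i1, i2, i3, r, θ, n, -, hθ, -, -, h, -⟩ := over_Q hc hχ
      rw [h σ d (fun _ => 1) hd fun i => isDefect_one_iff.mpr
        (hst N (θ i) (hθ i).1 (hθ i).2.1 (hθ i).2.2)]
      exact Finset.prod_eq_one fun i _ => one_zpow _
  · intro L _ _ _ χ hχ
    refine ⟨fun Φ n => exact_set hc hχ Φ n, fun n => ?_, fun Φ => ?_⟩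
    · rw [← exact_set hc hχ, ← exact_LRel hc hχ]
      constructor
      · rintro ⟨r, x, k, hx, h⟩
        refine ⟨r, x, k, fun i => ⟨(hx i).1, ?_⟩, h⟩
        obtain ⟨F, hF, hle⟩ := (hx i).2
        exact Cyc.mono hle hF
      · rintro ⟨r, x, k, hx, h⟩
        exact ⟨r, x, k, fun i => ⟨(hx i).1, _, (hx i).2, le_rfl⟩, h⟩
    constructor
    · rintro ⟨n, hn, h0⟩ K hK hcyc
      obtain ⟨r, x, k, hx, h⟩ := (exact_set hc hχ Φ n).2 h0
      by_contra hcon
      refine converse hχ hK hcyc hn (fun i => (hx i).1) (fun i hi => ?_) h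
      obtain ⟨F, hF, hxF⟩ := (hx i).2
      exact hcon ⟨F, hF, hi.trans hxF⟩
    · intro h
      have := finite_G (⟨ℚ, L⟩ : Ext)
      have hchr := chr_of_irr hχ
      obtain ⟨r, θ, n, hθ, -, hL, -⟩ := same_ext hc hchr
      exact ⟨cexpF (vals χ), cexpF_pos (abl_vals hchr), (exact_set hc hχ Φ _).1
        ⟨r, fun i => ⟨⟨ℚ, L⟩, θ i⟩, n, fun i => ⟨(hθ i).1, h _ (hθ i).2.1 (hθ i).2.2.1⟩, hL⟩⟩
  · intro m hm E χ hχ
    have := finite_G E
    exact basic_ext hc hm ⟨_, Nat.card_pos.ne', vals_le_cy hχ⟩ hχ (mem_vals χ)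
  · intro m hm F
    have hmono : ∀ {F' : IntermediateField ℚ ℂ}, F' ≤ F → ∀ x, Basic m F' x → Basic m F x := by
      intro F' hF' x hx
      cases hx with
      | trivial E => exact Basic.trivial E
      | odd E ψ h1 h2 => exact Basic.odd E ψ h1 h2
      | unramified E ψ K h1 h2 h3 h4 h5 h6 =>
        exact Basic.unramified E ψ K h1 h2 h3 (h4.trans hF') h5 h6
    refine ⟨fun σ hb E χ hχ hv d hd => ?_, fun hb E χ hχ hv a ha => ?_⟩
    · have := finite_G E
      obtain ⟨n, hn, r, x, k, hx, -, -, h, -⟩ := basic_ext hc hm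
        ⟨_, Nat.card_pos.ne', vals_le_cy hχ⟩ hχ (mem_vals χ)
      choose d' hd' _ using fun i => existsUnique_defect hc σ ((hx i).isChr)
      have h1 := h σ d d' hd hd'
      have h2 : d ^ n ∈ CommGroup.torsion ℂˣ := by
        rw [h1]
        exact Subgroup.prod_mem _ fun i _ =>
          Subgroup.zpow_mem _ (hb _ (hmono hv _ (hx i)) _ (hd' i)) _
      exact (isOfFinOrder_pow.mp h2).resolve_right hn.ne'
    · have := finite_G E
      obtain ⟨n, hn, r, x, k, hx, -, -, -, h⟩ := basic_ext hc hm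
        ⟨_, Nat.card_pos.ne', vals_le_cy hχ⟩ hχ (mem_vals χ)
      choose a' ha' using fun i => exists_starkNumber hc ((hx i).isChr)
      obtain ⟨α, hα, h1⟩ := h a a' ha ha'
      refine IsAlgebraic.of_pow hn ?_
      rw [h1, ← Pool.Agent.K4H34.AL.mem_QB]
      exact mul_mem (Pool.Agent.K4H34.AL.mem_QB.mpr hα) (prod_mem fun i _ =>
        zpow_mem (Pool.Agent.K4H34.AL.mem_QB.mpr (hb _ (hmono hv _ (hx i)) _ (ha' i))) _)

end Pool.Agent.Results.MP_46b841_nt.CyclicFieldsOfValues
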