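import Pool.Agent.H518.SY.Main
import Pool.Graph.R_pool_sql_team_seeded_c8625f6e.K4H74.SC.Lead

/-!
# Every finite group has everywhere unramified realisations which satisfy Stark's conjecture

The definitions of Stark's conjecture are those of `Pool.Agent.K4H74.SC.Core` (`S` is the set of the
infinite places, on which the truth of the conjecture does not depend):

* `Ext` is the type of the finite Galois extensions of number fields `⟨K, L⟩`, `G ⟨K, L⟩` the Galois
  group, `IsChr χ` says that `χ` is the character of a finite-dimensional complex representation;
* `logTerm χ s` is the family of the terms `χ(p^n) / (n N(p)^(n s))` of the logarithm of the Artin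
  L-function, over the nonzero primes `p` of `K` (also the ramified ones) and `n ≥ 1`;
* `IsLeading c` says that `c` is a system of leading coefficients at `s = 0` of the Artin L-functions:
  whenever a product of integral powers of Artin L-functions is, for `Re s > 1`, equal to a function
  `f` which is meromorphic on the plane, the same product of the numbers `c` is the leading
  coefficient of `f` at `s = 0`;
* `Stark c σ χ` is Stark's conjecture `A(χ, φ)^σ = A(χ^σ, φ)` for `χ` and the automorphism `σ` of `ℂ`,
  for all `φ`.

Nothing is assumed. The class number formula at `s = 0` is proved, from the functional equation.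
-/

set_option autoImplicit false

open NumberField IsDedekindDomain Pool.Agent.K4H74.SK
open Pool.Agent.Q92.AR (Unramified)

namespace Pool.Agent.Results.MP_46b841_nt.EveryGroupZetaProducts

/-- The extension `L / K`, for a field `K` between `K₀` and `L`. -/
def layer {K₀ L : Type} [Field K₀] [NumberField K₀] [Field L] [NumberField L] [Algebra K₀ L]
    [IsGalois K₀ L] (K : IntermediateField K₀ L) : Ext := ⟨K, L⟩

/-- `L(s, χ) = ∏ ζ_E(s)^(a E)` for `Re s > 1`: the Artin L-function of the character `χ` of the
Galois group of `L / K` is the product of the powers, with the exponents `a E ∈ ℤ`, of the Dedekind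
zeta functions of the fields `E` in the (finite) support of `a`. -/
def IsZetaProduct {K₀ L : Type} [Field K₀] [NumberField K₀] [Field L] [NumberField L] [Algebra K₀ L]
    [IsGalois K₀ L] (K : IntermediateField K₀ L) (χ : G (layer K) → ℂ)
    (a : IntermediateField K₀ L →₀ ℤ) : Prop :=
  ∀ s : ℂ, 1 < s.re → ∃ l : ℂ, HasSum (logTerm χ s) l ∧
    Complex.exp l = a.prod fun E m => dedekindZeta E s ^ m

/-- `- h_F R_F / w_F`, with the class number `h_F`, the regulator `R_F` and the number `w_F` of the
roots of unity of the number field `F`. -/
noncomputable def hRw (F : Type) [Field F] [NumberField F] : ℂ :=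
  -(((classNumber F : ℝ) * Units.regulator F / Units.torsionOrder F : ℝ) : ℂ)

/-- The leading coefficient of `L(s, χ)` at `s = 0` is `z`. -/
def HasLead {E : Ext} (χ : G E → ℂ) (z : ℂ) : Prop := ∀ c : Pair → ℂ, IsLeading c → c ⟨E, χ⟩ = z

/-- Stark's conjecture is true for `χ` (and all automorphisms `σ` of `ℂ` and all `φ`). -/
def StarkHolds {E : Ext} (χ : G E → ℂ) : Prop :=
  ∀ c : Pair → ℂ, IsLeading c → ∀ σ : ℂ ≃+* ℂ, Stark c σ χ

/-- `L / K` is unramified at all finite and all infinite places. -/
def Unr (K L : Type) [Field K] [NumberField K] [Field L] [NumberField L] [Algebra K L] : Prop :=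
  (∀ v : HeightOneSpectrum (𝓞 K), Unramified L v) ∧ IsUnramifiedAtInfinitePlaces K L

/-- `L / K` is unramified at all finite and infinite places, all its Artin L-functions are products
of integral powers of the Dedekind zeta functions of fields between `K₀` and `L`, their leading
coefficients at `s = 0` are the corresponding products of the numbers `- h R / w`, and Stark's
conjecture is true for all characters of the Galois group of `L / K`. -/
def Good {K₀ L : Type} [Field K₀] [NumberField K₀] [Field L] [NumberField L] [Algebra K₀ L]
    [IsGalois K₀ L] (K : IntermediateField K₀ L) : Prop :=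
  Unr K L ∧ ∀ χ : G (layer K) → ℂ, IsChr χ →
    (∃ a : IntermediateField K₀ L →₀ ℤ, IsZetaProduct K χ a ∧
      HasLead χ (a.prod fun E m => hRw E ^ m)) ∧ StarkHolds χ

/-- The Galois group of `L / K₀` is the symmetric group of degree `N`, every finite group of order at
most `N` is the Galois group of `L / K` for a field `K` between `K₀` and `L`, and all fields `K`
between `K₀` and `L` are good. -/
def Realises (K₀ L : Type) [Field K₀] [NumberField K₀] [Field L] [NumberField L] [Algebra K₀ L]
    [IsGalois K₀ L] (N : ℕ) : Prop :=
  Nonempty ((L ≃ₐ[K₀] L) ≃* Equiv.Perm (Fin N)) ∧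
    (∀ (G : Type) [Group G] [Finite G], Nat.card G ≤ N →
      ∃ K : IntermediateField K₀ L, Nonempty ((L ≃ₐ[K] L) ≃* G)) ∧
    ∀ K : IntermediateField K₀ L, Good K

/-- Systems of leading coefficients exist. Let `k` be a number field and `N`, `n₀` natural numbers.
There is a Galois extension `L / k` of number fields, of degree at least `n₀`, and a field `K₀`
between `k` and `L`, such that

* the Galois group of `L / K₀` is the symmetric group of degree `N`; in particular every finite group
  of order at most `N` is the Galois group of `L / K` for a field `K` between `K₀` and `L`;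
* every field `K` between `K₀` and `L` is good: `L / K` is unramified at all finite and all infinite
  places, all its Artin L-functions are products of integral powers of Dedekind zeta functions of
  fields between `K₀` and `L`, their leading coefficients at `s = 0` are the corresponding products of
  the numbers `- h R / w`, and Stark's conjecture is true for all characters of the group of `L / K`.
-/
theorem result (k : Type) [Field k] [NumberField k] (N n₀ : ℕ) :
    (∃ c : Pair → ℂ, IsLeading c) ∧
    ∃ (L : Type) (_ : Field L) (_ : NumberField L) (_ : Algebra k L) (_ : IsGalois k L)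
      (K₀ : IntermediateField k L), n₀ ≤ Module.finrank k L ∧ Realises K₀ L N := by
  refine ⟨exists_isLeading, ?_⟩
  obtain ⟨L, i1, i2, i3, i4, K₀, h1, ⟨e⟩, h3, h4⟩ := Pool.Agent.H518.SY.exists_main k N n₀
  refine ⟨L, i1, i2, i3, i4, K₀, h1, ⟨e⟩, fun G _ _ hG => Pool.Agent.H518.SY.exists_layer e G hG,
    fun K => ⟨⟨fun v => Pool.Agent.H518.SY.unram_tower h3 K v,
      IsUnramifiedAtInfinitePlaces.top (k := K₀) (K := K) (F := L)⟩, fun χ hχ => ?_⟩⟩
  obtain ⟨a, h5, h6, h7⟩ := Pool.Agent.H518.SY.layer_main e K χ hχ
  exact ⟨⟨a, h5, h6⟩, h7⟩

end Pool.Agent.Results.MP_46b841_nt.EveryGroupZetaProducts
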