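import Mathlib
import Pool.Agent.H600.SF.Main

/-!
# Artin L-functions and Stark's numbers `A(χ, φ)` of the characters with values in a given field:
only the traces of the class group characters of bounded order matter

The other definitions are in `Pool.Agent.K4H74.SC.Core` and `Pool.Agent.K4H77.SL.Def`; `S` is the
set of the infinite places. The formal properties of `A(χ, φ)` and the convergence of the Artin
L-series are proved.
-/

set_option autoImplicit false

namespace Pool.Agent.Results.MP_46b841_nt.FieldOfValues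

open NumberField Pool.Agent.K4H74 Pool.Agent.K4H74.SK Pool.Agent.K4H77 Pool.Agent.K4H34.AL
  Pool.Agent.H600.SF

/-- The decomposition group of the ideal `P` of the integers of `L`. -/
def decompGroup {E : Ext} (P : Ideal (𝓞 E.L)) : Set (G E) :=
  {g | ∀ x y : 𝓞 E.L, (y : E.L) = emb g x → (y ∈ P ↔ x ∈ P)}

/-- The inertia group of the ideal `P` of the integers of `L`. -/
def inertiaGroup {E : Ext} (P : Ideal (𝓞 E.L)) : Set (G E) :=
  {g | ∀ x y : 𝓞 E.L, (y : E.L) = emb g x → y - x ∈ P}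

/-- `L / K` is unramified at all finite primes, and the primes above `m` split completely. -/
def UnramifiedSplit (m : ℕ) (E : Ext) : Prop :=
  ∀ P : Ideal (𝓞 E.L), P.IsMaximal → (∀ g ∈ inertiaGroup P, g = 1) ∧
    ((m : 𝓞 E.L) ∈ P → ∀ g ∈ decompGroup P, g = 1)

lemma mem_decomp {E : Ext} {P : Ideal (𝓞 E.L)} (g : G E) :
    g ∈ decompGroup P ↔ (show E.L ≃ₐ[E.K] E.L from g) ∈ SL.decomp E.K P := by
  constructor
  · intro h x
    exact h x _ rfl
  · intro h x y hy
    have h1 : y = SL.gi (show E.L ≃ₐ[E.K] E.L from g) x := RingOfIntegers.ext hy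
    rw [h1]
    exact h x

lemma mem_inertia {E : Ext} {P : Ideal (𝓞 E.L)} (g : G E) :
    g ∈ inertiaGroup P ↔ (show E.L ≃ₐ[E.K] E.L from g) ∈ SL.inertia E.K P := by
  constructor
  · intro h x
    exact h x _ rfl
  · intro h x y hy
    have h1 : y = SL.gi (show E.L ≃ₐ[E.K] E.L from g) x := RingOfIntegers.ext hy
    rw [h1]
    exact h x

/-- The linear character `ψ` takes the value `-1` at all complex conjugations. -/
def TotallyOdd {E : Ext} (ψ : G E →* ℂˣ) : Prop := ∀ t : G E, IsCC t → ψ t = -1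

/-- The basic characters for `m`, `D` and the subfield `F` of the field of the `D`-th roots of unity:
the trivial characters, the totally odd linear characters of the extensions of the totally real
fields (for these two types Stark's conjecture is known, by the class number formula and Siegel's
theorem), and the traces over `F` (the sums of the conjugates over `F`, see `tr`) of the faithful
linear characters of order dividing `D` of the (cyclic) extensions `L / K`, `K` totally complex,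
which are unramified at all finite primes and in which the primes above `m` split completely. -/
inductive Basic (m D : ℕ) (F : IntermediateField ℚ ℂ) : Pair → Prop
  | trivial (E : Ext) : Basic m D F ⟨E, fun _ => 1⟩
  | odd (E : Ext) (ψ : G E →* ℂˣ) : IsTotallyReal E.K → TotallyOdd ψ → Basic m D F ⟨E, lin ψ⟩
  | unramified (E : Ext) (ψ : G E →* ℂˣ) : IsTotallyComplex E.K → UnramifiedSplit m E →
      Function.Injective ψ → ψ ^ D = 1 → Basic m D F ⟨E, tr F D ψ⟩

lemma isChr_one (E : Ext) : IsChr (fun _ : G E => (1 : ℂ)) := by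
  have h1 := isChr_lin (E := E) 1
  have h2 : lin (1 : G E →* ℂˣ) = fun _ => 1 := by
    funext g
    simp [lin]
  rwa [h2] at h1

lemma Basic.isChr {m D : ℕ} (hD : D ≠ 0) {F : IntermediateField ℚ ℂ} {x : Pair}
    (h : Basic m D F x) : IsChr x.2 := by
  cases h with
  | trivial E => exact isChr_one E
  | odd E ψ _ _ => exact isChr_lin ψ
  | unramified E ψ _ _ _ _ =>
    have hfinL : FiniteDimensional E.K E.L := Module.Finite.of_restrictScalars_finite ℚ E.K E.L
    exact isChr_iff.mpr (isChar_tr (G := E.L ≃ₐ[E.K] E.L) F hD ψ)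

/-- `a` is one of the numbers `A(χ, φ)`. -/
def IsStarkNumber (c : Pair → ℂ) (x : Pair) (a : ℂ) : Prop :=
  ∃ Λ : Y x.1 →ₗ[ℂ] Y x.1, IsStarkMap Λ ∧ IsA c Λ x.2 a

/-- Let `c` be a system of leading coefficients at `s = 0` of the Artin L-functions (such systems
exist; by Brauer's theorem on the meromorphic continuation, the only one is `L*(0, χ)`). Every
character `χ` has for every automorphism `σ` of `ℂ` exactly one defect `d(χ, σ)`, a nonzero number
with `A(χ, φ)^σ = d(χ, σ) A(χ^σ, φ)` for all `φ`; Stark's conjecture says that `d(χ, σ) = 1`.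

Let `m, D ≥ 1` and let `F` be a subfield of the field of the `D`-th roots of unity.

(1) For every character `χ` with values in `F` of a Galois extension of number fields there are
`n ≥ 1`, basic characters `ψ_i` (for `m`, `D` and `F`) and integers `k_i` such that
`L(s, χ)^n = ∏ L(s, ψ_i)^(k_i)` (for the logarithms, `Re s > 1`), the same is true for the leading
coefficients at `s = 0`, for the defects for all automorphisms `σ` of `ℂ`, and, up to an algebraic
factor, for the numbers `A(χ, φ)`.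

(2) For every `σ`: the defects of all the characters with values in `F` are roots of unity if the
defects of the basic characters are.

(3) All the numbers `A(χ, φ)` of the characters with values in `F` are algebraic if those of the
basic characters are. -/
theorem result : (∃ c : Pair → ℂ, IsLeading c) ∧ ∀ c : Pair → ℂ, IsLeading c →
    -- the defects
    (∀ (σ : ℂ ≃+* ℂ) (E : Ext) (χ : G E → ℂ), IsChr χ → ∃! d : ℂˣ, IsDefect c σ χ d) ∧
    ∀ m D : ℕ, m ≠ 0 → D ≠ 0 → ∀ F : IntermediateField ℚ ℂ,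
      F ≤ IntermediateField.adjoin ℚ {Complex.exp (2 * Real.pi * Complex.I / D)} →
      -- (1)
      (∀ (E : Ext) (χ : G E → ℂ), IsChr χ → (∀ g, χ g ∈ F) →
        ∃ n : ℕ, 0 < n ∧
          ∃ (r : ℕ) (x : Fin r → Pair) (k : Fin r → ℤ), (∀ i, Basic m D F (x i)) ∧
          (∀ s : ℂ, 1 < s.re → ∀ (l : ℂ) (l' : Fin r → ℂ), HasSum (logTerm χ s) l →
            (∀ i, HasSum (logTerm (x i).2 s) (l' i)) → n * l = ∑ i, k i * l' i) ∧
          c ⟨E, χ⟩ ^ n = ∏ i, c (x i) ^ k i ∧
          (∀ (σ : ℂ ≃+* ℂ) (d : ℂˣ) (d' : Fin r → ℂˣ), IsDefect c σ χ d →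
            (∀ i, IsDefect c σ (x i).2 (d' i)) → d ^ n = ∏ i, d' i ^ k i) ∧
          ∀ (a : ℂ) (a' : Fin r → ℂ), IsStarkNumber c ⟨E, χ⟩ a →
            (∀ i, IsStarkNumber c (x i) (a' i)) →
              ∃ α : ℂ, IsAlgebraic ℚ α ∧ a ^ n = α * ∏ i, a' i ^ k i) ∧
      -- (2)
      (∀ σ : ℂ ≃+* ℂ,
        (∀ x : Pair, Basic m D F x → ∀ d : ℂˣ, IsDefect c σ x.2 d → IsOfFinOrder d) →
          ∀ (E : Ext) (χ : G E → ℂ), IsChr χ → (∀ g, χ g ∈ F) → ∀ d : ℂˣ, IsDefect c σ χ d →
            IsOfFinOrder d) ∧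
      -- (3)
      ((∀ x : Pair, Basic m D F x → ∀ a : ℂ, IsStarkNumber c x a → IsAlgebraic ℚ a) →
        ∀ (E : Ext) (χ : G E → ℂ), IsChr χ → (∀ g, χ g ∈ F) → ∀ a : ℂ,
          IsStarkNumber c ⟨E, χ⟩ a → IsAlgebraic ℚ a) := by
  refine ⟨exists_isLeading, fun c hc => ⟨fun σ E χ hχ => existsUnique_defect hc σ hχ,
    fun m D hm hD F hF => ?_⟩⟩
  have hmain : ∀ (E : Ext) (χ : G E → ℂ), IsChr χ → (∀ g, χ g ∈ F) →
        ∃ n : ℕ, 0 < n ∧
          ∃ (r : ℕ) (x : Fin r → Pair) (k : Fin r → ℤ), (∀ i, Basic m D F (x i)) ∧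
          (∀ s : ℂ, 1 < s.re → ∀ (l : ℂ) (l' : Fin r → ℂ), HasSum (logTerm χ s) l →
            (∀ i, HasSum (logTerm (x i).2 s) (l' i)) → n * l = ∑ i, k i * l' i) ∧
          c ⟨E, χ⟩ ^ n = ∏ i, c (x i) ^ k i ∧
          (∀ (σ : ℂ ≃+* ℂ) (d : ℂˣ) (d' : Fin r → ℂˣ), IsDefect c σ χ d →
            (∀ i, IsDefect c σ (x i).2 (d' i)) → d ^ n = ∏ i, d' i ^ k i) ∧
          ∀ (a : ℂ) (a' : Fin r → ℂ), IsStarkNumber c ⟨E, χ⟩ a →
            (∀ i, IsStarkNumber c (x i) (a' i)) →
              ∃ α : ℂ, IsAlgebraic ℚ α ∧ a ^ n = α * ∏ i, a' i ^ k i := by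
    intro E χ hχ hv
    obtain ⟨n, hn, r, x, k, hx, h⟩ := power_field (allInv hc) (Basic m D F) hm hD hF
      (fun K _ _ => Basic.trivial ⟨K, K⟩)
      (fun E hE ψ hψ => Basic.odd E ψ hE hψ)
      (fun E hE hP ψ hψ hψe => Basic.unramified E ψ hE (fun P hPm =>
        ⟨fun g hg => (hP P hPm).1 g ((mem_inertia g).mp hg),
          fun hmP g hg => (hP P hPm).2 hmP g ((mem_decomp g).mp hg)⟩) hψ hψe) hχ hv
    obtain ⟨r1, r2, r3, r4⟩ := all_rel hc h
    refine ⟨n, hn, r, x, k, hx, fun s hs l l' hl hl' => log_rel r1 hs hl hl', ?_, ?_, ?_⟩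
    · have h1 := congrArg (Units.val) r2
      rw [Units.val_pow_eq_pow_val, pval_lead hc (x := ⟨E, χ⟩) hχ, Units.coe_prod] at h1
      rw [h1]
      exact Finset.prod_congr rfl fun i _ => by
        rw [Units.val_zpow_eq_zpow_val, pval_lead hc ((hx i).isChr hD)]
    · intro σ d d' hd hd'
      have h1 := r3 σ
      rw [pval_defect hc σ (x := ⟨E, χ⟩) hχ hd] at h1
      rw [h1]
      exact Finset.prod_congr rfl fun i _ => by rw [pval_defect hc σ ((hx i).isChr hD) (hd' i)]
    · rintro a a' ⟨Λ, hΛ, ha⟩ ha'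
      choose Λ' hΛ' ha' using ha'
      have ha0 : a ≠ 0 := isA_ne hc (x := ⟨E, χ⟩) hχ hΛ ha
      have ha0' : ∀ i, a' i ≠ 0 := fun i => isA_ne hc ((hx i).isChr hD) (hΛ' i) (ha' i)
      have e1 : pval (algInv (leadInv hc)) ⟨E, χ⟩ = (Units.mk0 a ha0 : ℂˣ) :=
        pval_alg hc (x := ⟨E, χ⟩) hχ hΛ ha
      have e2 : ∀ i, pval (algInv (leadInv hc)) (x i) = (Units.mk0 (a' i) (ha0' i) : ℂˣ) :=
        fun i => pval_alg hc ((hx i).isChr hD) (hΛ' i) (ha' i)
      have h1 : ((Units.mk0 a ha0 ^ n : ℂˣ) : ℂˣ ⧸ algU)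
          = ((∏ i, Units.mk0 (a' i) (ha0' i) ^ k i : ℂˣ) : ℂˣ ⧸ algU) := by
        change (QuotientGroup.mk' algU) _ = (QuotientGroup.mk' algU) _
        rw [map_pow, map_prod]
        change ((Units.mk0 a ha0 : ℂˣ) : ℂˣ ⧸ algU) ^ n = _
        rw [← e1, r4]
        exact Finset.prod_congr rfl fun i _ => by rw [map_zpow, e2]; rfl
      rw [QuotientGroup.eq, mem_algU] at h1
      set P : ℂˣ := ∏ i, Units.mk0 (a' i) (ha0' i) ^ k i with hP
      refine ⟨((P⁻¹ * Units.mk0 a ha0 ^ n : ℂˣ) : ℂ), ?_, ?_⟩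
      · have h2 : P⁻¹ * Units.mk0 a ha0 ^ n = ((Units.mk0 a ha0 ^ n)⁻¹ * P)⁻¹ := by
          rw [mul_inv_rev, inv_inv]
        rw [h2, Units.val_inv_eq_inv_val]
        exact h1.inv
      · have h2 : ∏ i, a' i ^ k i = (P : ℂ) := by
          rw [hP, Units.coe_prod]
          exact Finset.prod_congr rfl fun i _ => by
            rw [Units.val_zpow_eq_zpow_val, Units.val_mk0]
        rw [h2, ← Units.val_mul, mul_comm, mul_inv_cancel_left, Units.val_pow_eq_pow_val,
          Units.val_mk0]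
  refine ⟨hmain, ?_, ?_⟩
  · intro σ hb E χ hχ hv d hd
    obtain ⟨n, hn, r, x, k, hx, -, -, h, -⟩ := hmain E χ hχ hv
    choose d' hd' _ using fun i => existsUnique_defect hc σ ((hx i).isChr hD)
    have h1 := h σ d d' hd hd'
    have h2 : d ^ n ∈ CommGroup.torsion ℂˣ := by
      rw [h1]
      exact Subgroup.prod_mem _ fun i _ => Subgroup.zpow_mem _ (hb _ (hx i) _ (hd' i)) _
    exact (isOfFinOrder_pow.mp h2).resolve_right hn.ne'
  · intro hb E χ hχ hv a ha
    obtain ⟨n, hn, r, x, k, hx, -, -, -, h⟩ := hmain E χ hχ hv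
    have h0 : ∀ i, ∃ a', IsStarkNumber c (x i) a' := by
      intro i
      have h' := isChr_iff.mp ((hx i).isChr hD)
      obtain ⟨φ⟩ := SC.exists_StarkMap (L := (x i).1.L) (x i).1.K
      obtain ⟨a, ha⟩ := SC.IsA.exists (leadInv hc) φ h'
      obtain ⟨Λ, hΛ, hφ⟩ := exists_new φ
      exact ⟨a, Λ, hΛ, isA_new hc hφ h' ha⟩
    choose a' ha' using h0
    obtain ⟨α, hα, h1⟩ := h a a' ha ha'
    refine IsAlgebraic.of_pow hn ?_
    rw [h1, ← mem_QB]
    exact mul_mem (mem_QB.mpr hα) (prod_mem fun i _ =>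
      zpow_mem (mem_QB.mpr (hb _ (hx i) _ (ha' i))) _)

end Pool.Agent.Results.MP_46b841_nt.FieldOfValues
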